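import Pool.Agent.PFE.StmtsE2

/-! Squad PFE, block E2, row LRC: the rules of the coordinates over `R[y]`. -/

open scoped BigOperators

noncomputable section

namespace Pool.Agent.PFE.H69

open MulOpposite
open Pool.Agent.PFC.B1 (BiM)
open Pool.Agent.PFD.D2b (wrp)

section

variable {R Γ W N X Ω Ω' : Type} [CommRing R] [CommRing Γ] [Algebra R Γ] [CommGroup W] [Fintype W]
    [AddCommGroup N] [Module R N] [Group X] [Fintype Ω] [Fintype Ω'] [MulAction (W × W) Ω]
    [MulAction (W × W) Ω'] {l : ℕ} {G : GY R Γ W l} {χ : X →* R} {B : BiM R Γ N}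
    {q : N →ₗ[R] N}

theorem shf (y : Γ) (hl : 1 ≤ l) (hy : y ^ l = 0) (g h : ℕ → R) (g0 : g 0 = 0)
    (gh : ∀ i, i + 1 < l → g (i + 1) = h i) :
    ∑ i ∈ Finset.range l, g i • y ^ i = y * ∑ i ∈ Finset.range l, h i • y ^ i := by
  obtain ⟨L, rfl⟩ : ∃ L, l = L + 1 := ⟨l - 1, by omega⟩
  rw [Finset.sum_range_succ', Finset.sum_range_succ, g0, zero_smul, add_zero, mul_add,
    Finset.mul_sum, mul_smul_comm, ← pow_succ', hy, smul_zero, add_zero]
  refine Finset.sum_congr rfl fun i hi => ?_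
  rw [gh i (by simpa using hi), mul_smul_comm, ← pow_succ']

theorem ll (a b : Γ) (n : N) : B.lm a (B.lm b n) = B.lm (a * b) n := by
  rw [map_mul, Module.End.mul_apply]

theorem rr (a b : Γ) (n : N) : B.rm (op a) (B.rm (op b) n) = B.rm (op (a * b)) n := by
  rw [mul_comm, op_mul, map_mul, Module.End.mul_apply]

theorem yz (G : GY R Γ W l) {m : ℕ} (h : l ≤ m) : G.y ^ m = 0 := pow_eq_zero_of_le h G.yl

theorem wl (w : W × W) (a : Γ) (n : N) : B.lm a (wrp G.om B w n) = wrp G.om B w (B.lm a n) := by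
  show B.lm a (B.lm (G.om w.1) (B.rm (op (G.om w.2⁻¹)) n)) =
    B.lm (G.om w.1) (B.rm (op (G.om w.2⁻¹)) (B.lm a n))
  rw [← B.comm, ll, ll, mul_comm]

theorem wr (w : W × W) (a : Γ) (n : N) :
    B.rm (op a) (wrp G.om B w n) = wrp G.om B w (B.rm (op a) n) := by
  show B.rm (op a) (B.lm (G.om w.1) (B.rm (op (G.om w.2⁻¹)) n)) =
    B.lm (G.om w.1) (B.rm (op (G.om w.2⁻¹)) (B.rm (op a) n))
  rw [← B.comm, rr, rr, mul_comm]

theorem rms (a : ℕ → R) (n : N) : B.rm (op (∑ i ∈ Finset.range l, a i • G.y ^ i)) n =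
    ∑ i ∈ Finset.range l, a i • B.rm (op (G.y ^ i)) n := by
  have h : op (∑ i ∈ Finset.range l, a i • G.y ^ i) =
      ∑ i ∈ Finset.range l, a i • op (G.y ^ i) :=
    map_sum (opAddEquiv : Γ ≃+ Γᵐᵒᵖ) _ _
  rw [h, map_sum, LinearMap.sum_apply]
  simp only [map_smul, LinearMap.smul_apply]

theorem chu (χ : X →* R) (x : X) : χ x⁻¹ * χ x = 1 := by
  rw [← map_mul, inv_mul_cancel, map_one]

theorem gyi (F : YFr Ω Ω' G χ B q) (o : Ω) (i : ℕ) :
    B.lm (G.y ^ i) (F.g o) = χ (F.deg o) ^ i • B.rm (op (G.y ^ i)) (F.g o) := by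
  induction i with
  | zero => simp
  | succ i ih =>
    have e1 : B.lm (G.y ^ (i + 1)) (F.g o) = B.lm G.y (B.lm (G.y ^ i) (F.g o)) := by
      rw [ll, pow_succ']
    rw [e1, ih, map_smul, B.comm, F.gy, map_smul, rr, smul_smul, ← pow_succ, ← pow_succ]

theorem cyr (F : YFr Ω Ω' G χ B q) (o : Ω) (m : ℕ) (n : N) :
    χ (F.deg o) * F.c o (B.lm (G.y ^ m) (B.rm (op G.y) n)) = F.c o (B.lm (G.y ^ (m + 1)) n) := by
  rw [B.comm, ← F.cy, ll, ← pow_succ']

theorem cyr' (F : YFr Ω Ω' G χ B q) (o : Ω) (m : ℕ) (n : N) :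
    F.c o (B.lm (G.y ^ m) (B.rm (op G.y) n)) =
      χ (F.deg o)⁻¹ * F.c o (B.lm (G.y ^ (m + 1)) n) := by
  rw [← cyr, ← mul_assoc, chu, one_mul]

end

theorem lrc : LrcStmt := by
  classical
  intro R Γ W N X Ω Ω' _ _ _ _ _ _ _ _ _ _ _ _ l G χ B q F hl
  refine ⟨?_, ?_, ?_, ?_, ?_, ?_, ?_, ?_, ?_, ?_⟩
  · intro n
    rw [← F.fr n, Fintype.sum_sum_type, Fintype.sum_prod_type]
    congr 1
    · refine Finset.sum_congr rfl fun o _ => ?_
      simp only [YFr.L, YFr.gl, Sum.elim_inl, map_sum, map_smul, LinearMap.sum_apply,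
        LinearMap.smul_apply]
    · refine Finset.sum_congr rfl fun o _ => ?_
      rw [Finset.sum_comm' (s := Finset.range l) (t := fun _ => Finset.range l)
        (t' := Finset.range l) (s' := fun _ => Finset.range l) (by simp)]
      rw [Finset.sum_range]
      refine Finset.sum_congr rfl fun k _ => ?_
      simp only [YFr.L, YFr.gl, Sum.elim_inr, map_sum, map_smul, LinearMap.sum_apply,
        LinearMap.smul_apply]
  · intro n
    rw [← F.fr n, Fintype.sum_sum_type, Fintype.sum_prod_type]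
    congr 1
    · refine Finset.sum_congr rfl fun o _ => ?_
      simp only [YFr.Rr, YFr.gr, Sum.elim_inl, rms]
      refine Finset.sum_congr rfl fun i _ => ?_
      rw [gyi, smul_smul, mul_comm]
    · refine Finset.sum_congr rfl fun o _ => ?_
      rw [Finset.sum_range]
      refine Finset.sum_congr rfl fun k _ => ?_
      simp only [YFr.Rr, YFr.gr, Sum.elim_inr, rms, B.comm]
  · rintro n (o | ⟨o, k⟩)
    · refine shf G.y hl G.yl _ _ ?_ ?_
      · show F.c o (B.lm _ (B.lm _ n)) = 0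
        rw [ll, ← pow_succ, yz G (by omega), map_zero, LinearMap.zero_apply, map_zero]
      · intro i hi
        show F.c o (B.lm _ (B.lm _ n)) = _
        rw [ll, ← pow_succ, show l - 1 - (i + 1) + 1 = l - 1 - i by omega]
    · refine shf G.y hl G.yl _ _ ?_ ?_
      · show F.d o (B.lm _ (B.rm _ (B.lm _ n))) = 0
        rw [← B.comm, ll, ← pow_succ, yz G (by omega), map_zero, LinearMap.zero_apply, map_zero]
      · intro i hi
        show F.d o (B.lm _ (B.rm _ (B.lm _ n))) = _
        rw [← B.comm, ll, ← pow_succ, show l - 1 - (i + 1) + 1 = l - 1 - i by omega]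
  · rintro n (o | ⟨o, k⟩)
    · rw [mul_comm]
      refine shf G.y hl G.yl _ _ ?_ ?_
      · show χ (F.deg o) ^ 0 * F.c o (B.lm _ (B.rm _ n)) = 0
        rw [cyr', yz G (by omega), map_zero, LinearMap.zero_apply, map_zero, mul_zero, mul_zero]
      · intro i hi
        show χ (F.deg o) ^ (i + 1) * F.c o (B.lm _ (B.rm _ n)) = _
        rw [pow_succ, mul_assoc, cyr, show l - 1 - (i + 1) + 1 = l - 1 - i by omega]
    · rw [mul_comm]
      refine shf G.y hl G.yl _ _ ?_ ?_
      · show F.d o (B.lm _ (B.rm _ (B.rm _ n))) = 0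
        rw [rr, ← pow_succ, yz G (show l ≤ l - 1 - 0 + 1 by omega), op_zero, map_zero,
          LinearMap.zero_apply, map_zero, map_zero]
      · intro i hi
        show F.d o (B.lm _ (B.rm _ (B.rm _ n))) = _
        rw [rr, ← pow_succ, show l - 1 - (i + 1) + 1 = l - 1 - i by omega]
  · rintro n (o | ⟨o, k⟩)
    · rw [Fintype.sum_sum_type]
      have e1 : ∀ o' : Ω, pP (Ω' := Ω') G χ F.deg (Sum.inl o') (Sum.inl o) * F.L n (Sum.inl o') =
          if o' = o then (χ (F.deg o)⁻¹ • G.y) * F.L n (Sum.inl o) else 0 := by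
        intro o'
        show (if o' = o then _ else _) * _ = _
        split_ifs with h
        · rw [h]
        · rw [zero_mul]
      have e2 : ∀ p : Ω' × Fin l, pP G χ F.deg (Sum.inr p) (Sum.inl o) * F.L n (Sum.inr p) = 0 := by
        intro p
        exact zero_mul _
      rw [Finset.sum_congr rfl fun o' _ => e1 o', Finset.sum_congr rfl fun p _ => e2 p,
        Finset.sum_const_zero, add_zero, Finset.sum_ite_eq' Finset.univ o, if_pos (Finset.mem_univ _),
        smul_mul_assoc, ← mul_smul_comm]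
      have e3 : χ (F.deg o)⁻¹ • F.L n (Sum.inl o) = ∑ i ∈ Finset.range l,
          (χ (F.deg o)⁻¹ * F.c o (B.lm (G.y ^ (l - 1 - i)) n)) • G.y ^ i := by
        show χ (F.deg o)⁻¹ • ∑ i ∈ Finset.range l, _ = _
        rw [Finset.smul_sum]
        simp only [smul_smul]
      rw [e3]
      refine shf G.y hl G.yl _ _ ?_ ?_
      · show F.c o (B.lm _ (B.rm _ n)) = 0
        rw [cyr', yz G (by omega), map_zero, LinearMap.zero_apply, map_zero, mul_zero]
      · intro i hi
        show F.c o (B.lm _ (B.rm _ n)) = _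
        rw [cyr', show l - 1 - (i + 1) + 1 = l - 1 - i by omega]
    · rw [Fintype.sum_sum_type]
      have e1 : ∀ o' : Ω, pP G χ F.deg (Sum.inl o') (Sum.inr (o, k)) * F.L n (Sum.inl o') = 0 := by
        intro o'
        exact zero_mul _
      have e2 : ∀ p : Ω' × Fin l, pP G χ F.deg (Sum.inr p) (Sum.inr (o, k)) * F.L n (Sum.inr p) =
          if p.1 = o ∧ (p.2 : ℕ) + 1 = (k : ℕ) then F.L n (Sum.inr p) else 0 := by
        intro p
        show (if p.1 = o ∧ (p.2 : ℕ) + 1 = (k : ℕ) then 1 else 0) * _ = _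
        split_ifs with h
        · rw [one_mul]
        · rw [zero_mul]
      rw [Finset.sum_congr rfl fun o' _ => e1 o', Finset.sum_congr rfl fun p _ => e2 p,
        Finset.sum_const_zero, zero_add]
      have e3 : F.L (B.rm (op G.y) n) (Sum.inr (o, k)) = ∑ i ∈ Finset.range l,
          F.d o (B.lm (G.y ^ (l - 1 - i)) (B.rm (op (G.y ^ (l - 1 - (k : ℕ) + 1))) n)) •
            G.y ^ i := by
        simp only [YFr.L, Sum.elim_inr, rr, ← pow_succ]
      rw [e3]
      by_cases hk : (k : ℕ) = 0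
      · rw [yz G (show l ≤ l - 1 - (k : ℕ) + 1 by omega), Finset.sum_eq_zero, Finset.sum_eq_zero]
        · intro p _
          rw [if_neg]
          rintro ⟨_, h⟩
          omega
        · intro i _
          rw [op_zero, map_zero, LinearMap.zero_apply, map_zero, map_zero, zero_smul]
      · have hk' : (k : ℕ) - 1 < l := by have := k.2; omega
        rw [Finset.sum_eq_single (o, (⟨(k : ℕ) - 1, hk'⟩ : Fin l))]
        · rw [if_pos ⟨rfl, by show (k : ℕ) - 1 + 1 = (k : ℕ); omega⟩]
          refine Finset.sum_congr rfl fun i _ => ?_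
          show _ = F.d o (B.lm (G.y ^ (l - 1 - i)) (B.rm (op (G.y ^ (l - 1 - ((k : ℕ) - 1)))) n)) • _
          rw [show l - 1 - ((k : ℕ) - 1) = l - 1 - (k : ℕ) + 1 by have := k.2; omega]
        · rintro ⟨o', k'⟩ _ hp
          rw [if_neg]
          rintro ⟨h1, h2⟩
          apply hp
          have h2' : (k' : ℕ) + 1 = (k : ℕ) := h2
          have h1' : o' = o := h1
          rw [h1', Prod.mk.injEq]
          refine ⟨rfl, Fin.ext ?_⟩
          show (k' : ℕ) = (k : ℕ) - 1
          omega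
        · intro h
          exact absurd (Finset.mem_univ _) h
  · rintro n (o | ⟨o, k⟩)
    · rw [Fintype.sum_sum_type]
      have e1 : ∀ o' : Ω, pQ (Ω' := Ω') G χ F.deg (Sum.inl o) (Sum.inl o') * F.Rr n (Sum.inl o') =
          if o' = o then (χ (F.deg o) • G.y) * F.Rr n (Sum.inl o) else 0 := by
        intro o'
        show (if o = o' then _ else _) * _ = _
        by_cases h : o = o'
        · rw [if_pos h, if_pos h.symm, h]
        · rw [if_neg h, if_neg (fun h' => h h'.symm), zero_mul]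
      have e2 : ∀ p : Ω' × Fin l, pQ G χ F.deg (Sum.inl o) (Sum.inr p) * F.Rr n (Sum.inr p) = 0 := by
        intro p
        exact zero_mul _
      rw [Finset.sum_congr rfl fun o' _ => e1 o', Finset.sum_congr rfl fun p _ => e2 p,
        Finset.sum_const_zero, add_zero, Finset.sum_ite_eq' Finset.univ o, if_pos (Finset.mem_univ _),
        smul_mul_assoc, ← mul_smul_comm]
      have e3 : χ (F.deg o) • F.Rr n (Sum.inl o) = ∑ i ∈ Finset.range l,
          (χ (F.deg o) * (χ (F.deg o) ^ i * F.c o (B.lm (G.y ^ (l - 1 - i)) n))) • G.y ^ i := by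
        show χ (F.deg o) • ∑ i ∈ Finset.range l, _ = _
        rw [Finset.smul_sum]
        simp only [smul_smul]
      rw [e3]
      refine shf G.y hl G.yl _ _ ?_ ?_
      · show χ (F.deg o) ^ 0 * F.c o (B.lm _ (B.lm _ n)) = 0
        rw [ll, ← pow_succ, yz G (by omega), map_zero, LinearMap.zero_apply, map_zero, mul_zero]
      · intro i hi
        show χ (F.deg o) ^ (i + 1) * F.c o (B.lm _ (B.lm _ n)) = _
        rw [ll, ← pow_succ, show l - 1 - (i + 1) + 1 = l - 1 - i by omega, pow_succ']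
        ring
    · rw [Fintype.sum_sum_type]
      have e1 : ∀ o' : Ω, pQ G χ F.deg (Sum.inr (o, k)) (Sum.inl o') * F.Rr n (Sum.inl o') = 0 := by
        intro o'
        exact zero_mul _
      have e2 : ∀ p : Ω' × Fin l, pQ G χ F.deg (Sum.inr (o, k)) (Sum.inr p) * F.Rr n (Sum.inr p) =
          if p.1 = o ∧ (p.2 : ℕ) + 1 = (k : ℕ) then F.Rr n (Sum.inr p) else 0 := by
        intro p
        show (if o = p.1 ∧ (p.2 : ℕ) + 1 = (k : ℕ) then 1 else 0) * _ = _
        by_cases h : p.1 = o ∧ (p.2 : ℕ) + 1 = (k : ℕ)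
        · rw [if_pos h, if_pos ⟨h.1.symm, h.2⟩, one_mul]
        · rw [if_neg h, if_neg (fun h' => h ⟨h'.1.symm, h'.2⟩), zero_mul]
      rw [Finset.sum_congr rfl fun o' _ => e1 o', Finset.sum_congr rfl fun p _ => e2 p,
        Finset.sum_const_zero, zero_add]
      have e3 : F.Rr (B.lm G.y n) (Sum.inr (o, k)) = ∑ i ∈ Finset.range l,
          F.d o (B.lm (G.y ^ (l - 1 - (k : ℕ) + 1)) (B.rm (op (G.y ^ (l - 1 - i))) n)) •
            G.y ^ i := by
        simp only [YFr.Rr, Sum.elim_inr, ← B.comm, ll, ← pow_succ]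
      rw [e3]
      by_cases hk : (k : ℕ) = 0
      · rw [yz G (show l ≤ l - 1 - (k : ℕ) + 1 by omega), Finset.sum_eq_zero, Finset.sum_eq_zero]
        · intro p _
          rw [if_neg]
          rintro ⟨_, h⟩
          omega
        · intro i _
          rw [map_zero, LinearMap.zero_apply, map_zero, zero_smul]
      · have hk' : (k : ℕ) - 1 < l := by have := k.2; omega
        rw [Finset.sum_eq_single (o, (⟨(k : ℕ) - 1, hk'⟩ : Fin l))]
        · rw [if_pos ⟨rfl, by show (k : ℕ) - 1 + 1 = (k : ℕ); omega⟩]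
          refine Finset.sum_congr rfl fun i _ => ?_
          show _ = F.d o (B.lm (G.y ^ (l - 1 - ((k : ℕ) - 1))) (B.rm (op (G.y ^ (l - 1 - i))) n)) • _
          rw [show l - 1 - ((k : ℕ) - 1) = l - 1 - (k : ℕ) + 1 by have := k.2; omega]
        · rintro ⟨o', k'⟩ _ hp
          rw [if_neg]
          rintro ⟨h1, h2⟩
          apply hp
          have h2' : (k' : ℕ) + 1 = (k : ℕ) := h2
          have h1' : o' = o := h1
          rw [h1', Prod.mk.injEq]
          refine ⟨rfl, Fin.ext ?_⟩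
          show (k' : ℕ) = (k : ℕ) - 1
          omega
        · intro h
          exact absurd (Finset.mem_univ _) h
  · rintro w n (o | ⟨o, k⟩)
    · simp only [xa, Sum.map_inl, YFr.L, Sum.elim_inl, wl, F.cw]
    · simp only [xa, Sum.map_inr, YFr.L, Sum.elim_inr, wl, wr, F.dw]
  · rintro w n (o | ⟨o, k⟩)
    · simp only [xa, Sum.map_inl, YFr.Rr, Sum.elim_inl, wl, F.cw, F.dg]
    · simp only [xa, Sum.map_inr, YFr.Rr, Sum.elim_inr, wl, wr, F.dw]
  · rintro a b (o | ⟨o, k⟩)
    · simp only [YFr.L, YFr.Rr, Sum.elim_inl, map_add, mul_add, add_smul, Finset.sum_add_distrib,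
        and_self]
    · simp only [YFr.L, YFr.Rr, Sum.elim_inr, map_add, mul_add, add_smul, Finset.sum_add_distrib,
        and_self]
  · rintro r a (o | ⟨o, k⟩)
    · simp only [YFr.L, YFr.Rr, Sum.elim_inl, map_smul, smul_eq_mul, Finset.smul_sum, smul_smul,
        mul_left_comm, and_self]
    · simp only [YFr.L, YFr.Rr, Sum.elim_inr, map_smul, smul_eq_mul, Finset.smul_sum, smul_smul,
        mul_left_comm, and_self]

end Pool.Agent.PFE.H69
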